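import Mathlib

set_option autoImplicit false

namespace Pool.Agent.Results.MP_6883a6_al.Counterexample

open MulOpposite

/-- The right submodule `N` of `R^d` is free with a basis of `n` elements. -/
def HasRank {R : Type} [Ring R] {d : ℕ} (N : Submodule Rᵐᵒᵖ (Fin d → R)) (n : ℕ) : Prop :=
  Nonempty (Module.Basis (Fin n) Rᵐᵒᵖ N)

/-- No proper free direct summand of `R^d` contains `M`. -/
def Algebraic {R : Type} [Ring R] {d : ℕ} (M : Submodule Rᵐᵒᵖ (Fin d → R)) : Prop :=
  ∀ N : Submodule Rᵐᵒᵖ (Fin d → R), Module.Free Rᵐᵒᵖ N → (∃ N', IsCompl N N') → M ≤ N → N = ⊤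

/-- `M ∩ K[H]^d` as a right `K[H]`-submodule of `K[H]^d`. -/
noncomputable def inter {K F : Type} [Field K] [Group F] {d : ℕ} (H : Subgroup F)
    (M : Submodule (MonoidAlgebra K F)ᵐᵒᵖ (Fin d → MonoidAlgebra K F)) :
    Submodule (MonoidAlgebra K H)ᵐᵒᵖ (Fin d → MonoidAlgebra K H) where
  carrier := {v | (fun i => MonoidAlgebra.mapDomainRingHom K H.subtype (v i)) ∈ M}
  add_mem' {v w} hv hw := by
    have := M.add_mem hv hw
    convert this using 1
    simp only [Set.mem_ofPred_eq, Pi.add_apply, map_add]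
    rfl
  zero_mem' := by
    simp only [Set.mem_ofPred_eq, Pi.zero_apply, map_zero]
    exact M.zero_mem
  smul_mem' c v hv := by
    have := M.smul_mem (op (MonoidAlgebra.mapDomainRingHom K H.subtype c.unop)) hv
    convert this using 1
    simp only [Set.mem_ofPred_eq, Pi.smul_apply, MulOpposite.smul_eq_mul_unop, map_mul]
    rfl

section Fox

variable {K G : Type} [Field K] [Group G]

noncomputable abbrev o (g : G) : MonoidAlgebra K G := MonoidAlgebra.of K G g

theorem o_inv (g : G) : (o g * o g⁻¹ : MonoidAlgebra K G) = 1 := by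
  rw [← map_mul, mul_inv_cancel, map_one]

theorem o_inv' (g : G) : (o g⁻¹ * o g : MonoidAlgebra K G) = 1 := by
  rw [← map_mul, inv_mul_cancel, map_one]

noncomputable def eps : MonoidAlgebra K G →ₐ[K] K := MonoidAlgebra.lift K K G 1

theorem eps_o (g : G) : eps (o g : MonoidAlgebra K G) = 1 := by simp [eps]

@[elab_as_elim]
theorem ind {n : ℕ} (b : FreeGroupBasis (Fin n) G) {P : G → Prop} (h1 : P 1) (hb : ∀ i, P (b i))
    (hinv : ∀ g, P g → P g⁻¹) (hmul : ∀ g h, P g → P h → P (g * h)) (g : G) : P g := by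
  obtain ⟨w, rfl⟩ := b.repr.symm.surjective g
  induction w using FreeGroup.induction_on with
  | C1 => simpa using h1
  | of i => exact hb i
  | inv_of i h => rw [map_inv]; exact hinv _ h
  | mul x y hx hy => rw [map_mul]; exact hmul _ _ hx hy

theorem aug {n : ℕ} (b : FreeGroupBasis (Fin n) G) (z : MonoidAlgebra K G) (hz : eps z = 0) :
    ∃ c : Fin n → MonoidAlgebra K G, z = ∑ i, (o (b i) - 1) * c i := by
  have hg : ∀ g : G, ∃ c : Fin n → MonoidAlgebra K G, o g - 1 = ∑ i, (o (b i) - 1) * c i := by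
    intro g
    refine ind b ?_ ?_ ?_ ?_ g
    · exact ⟨0, by simp [-MonoidAlgebra.of_apply]⟩
    · intro i
      exact ⟨Pi.single i 1, by simp [Pi.single_apply]⟩
    · rintro g ⟨c, hc⟩
      refine ⟨fun i => -(c i * o g⁻¹), ?_⟩
      simp only [mul_neg, ← mul_assoc, Finset.sum_neg_distrib, ← Finset.sum_mul, ← hc]
      rw [sub_mul, o_inv, one_mul, neg_sub]
    · rintro g h ⟨c, hc⟩ ⟨d, hd⟩
      refine ⟨fun i => c i * o h + d i, ?_⟩
      simp only [mul_add, ← mul_assoc, Finset.sum_add_distrib, ← Finset.sum_mul, ← hc, ← hd]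
      rw [o, map_mul, sub_mul, one_mul, sub_add_sub_cancel]
  have key : ∀ z : MonoidAlgebra K G, ∃ c : Fin n → MonoidAlgebra K G,
      z - algebraMap K _ (eps z) = ∑ i, (o (b i) - 1) * c i := by
    intro z
    induction z using MonoidAlgebra.induction_on with
    | of g => rw [eps_o, map_one]; exact hg g
    | add x y hx hy =>
      obtain ⟨c, hc⟩ := hx
      obtain ⟨d, hd⟩ := hy
      refine ⟨c + d, ?_⟩
      simp only [Pi.add_apply, mul_add, Finset.sum_add_distrib, ← hc, ← hd, map_add]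
      abel
    | smul r x hx =>
      obtain ⟨c, hc⟩ := hx
      refine ⟨r • c, ?_⟩
      simp only [Pi.smul_apply, mul_smul_comm, ← Finset.smul_sum, ← hc, map_smul, smul_sub]
      rw [Algebra.algebraMap_eq_smul_one, Algebra.algebraMap_eq_smul_one, smul_assoc]
  simpa [hz] using key z

noncomputable def foxU (δ : MonoidAlgebra K G) (g : G) :
    (Matrix (Fin 2) (Fin 2) (MonoidAlgebra K G))ˣ where
  val := !![1, δ; 0, o g]
  inv := !![1, -(δ * o g⁻¹); 0, o g⁻¹]
  val_inv := by
    ext1 i j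
    fin_cases i <;> fin_cases j <;>
      simp only [Matrix.mul_apply, Fin.sum_univ_two] <;> simp [-MonoidAlgebra.of_apply, o_inv]
  inv_val := by
    ext1 i j
    fin_cases i <;> fin_cases j <;>
      simp only [Matrix.mul_apply, Fin.sum_univ_two] <;>
      simp [-MonoidAlgebra.of_apply, o_inv', mul_assoc]

theorem indep {n : ℕ} (b : FreeGroupBasis (Fin n) G) (c : Fin n → MonoidAlgebra K G)
    (h : ∑ i, (o (b i) - 1) * c i = 0) (j : Fin n) : c j = 0 := by
  let ρ0 : G →* (Matrix (Fin 2) (Fin 2) (MonoidAlgebra K G))ˣ :=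
    b.lift fun i => foxU (if i = j then 1 else 0) (b i)
  have h0 : ∀ i, ρ0 (b i) = foxU (if i = j then 1 else 0) (b i) := fun i =>
    congrFun (b.lift.symm_apply_apply fun i => foxU (if i = j then 1 else 0) (b i)) i
  let ρ : MonoidAlgebra K G →ₐ[K] Matrix (Fin 2) (Fin 2) (MonoidAlgebra K G) :=
    MonoidAlgebra.lift K _ G ((Units.coeHom _).comp ρ0)
  have hρ : ∀ g, ρ (o g) = ρ0 g := fun g => by simp [ρ]
  have hg : ∀ g : G, (ρ0 g).val 1 0 = 0 ∧ (ρ0 g).val 1 1 = o g := by
    intro g
    refine ind b ?_ ?_ ?_ ?_ g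
    · simp [-MonoidAlgebra.of_apply]
    · intro i
      rw [h0]
      exact ⟨rfl, rfl⟩
    · rintro g ⟨e0, e1⟩
      have e : (ρ0 g).val * (ρ0 g⁻¹).val = 1 := by
        rw [← Units.val_mul, ← map_mul, mul_inv_cancel, map_one, Units.val_one]
      have a0 := congrFun (congrFun e 1) 0
      have a1 := congrFun (congrFun e 1) 1
      simp only [Matrix.mul_apply, Fin.sum_univ_two, e0, e1, zero_mul, zero_add] at a0 a1
      constructor
      · rw [← one_mul ((ρ0 g⁻¹).val 1 0), ← o_inv' g, mul_assoc, a0]; simp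
      · rw [← one_mul ((ρ0 g⁻¹).val 1 1), ← o_inv' g, mul_assoc, a1]; simp
    · rintro g h ⟨e0, e1⟩ ⟨f0, f1⟩
      simp only [map_mul, Units.val_mul, Matrix.mul_apply, Fin.sum_univ_two, e0, e1, f0, f1,
        zero_mul, mul_zero, zero_add, and_self]
  have ha : ∀ a : MonoidAlgebra K G, ρ a 1 1 = a := by
    intro a
    induction a using MonoidAlgebra.induction_on with
    | of g => rw [hρ]; exact (hg g).2
    | add x y hx hy => rw [map_add, Matrix.add_apply, hx, hy]
    | smul r x hx => rw [map_smul, Matrix.smul_apply, hx]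
  have := congrFun (congrFun (congrArg ρ h) 0) 1
  simp only [map_sum, map_mul, map_sub, map_one, hρ, h0, Matrix.sum_apply, Matrix.mul_apply,
    Fin.sum_univ_two, ha, Matrix.sub_apply, foxU] at this
  simpa using this

theorem nzd_left {g : G} (hg : ∀ n : ℕ, g ^ n = 1 → n = 0) {u : MonoidAlgebra K G}
    (h : (o g - 1) * u = 0) : u = 0 := by
  by_contra hu
  have h1 : o g * u = u := by rwa [sub_mul, one_mul, sub_eq_zero] at h
  have h2 : ∀ n : ℕ, o (g ^ n) * u = u := by
    intro n
    induction n with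
    | zero => simp [-MonoidAlgebra.of_apply]
    | succ n ih => rw [pow_succ, o, map_mul, mul_assoc, h1, ih]
  obtain ⟨x, hx⟩ : ∃ x, u.coeff x ≠ 0 := by
    by_contra hc
    push Not at hc
    exact hu (by ext x; simpa using hc x)
  have h3 : ∀ n : ℕ, g ^ n * x ∈ u.coeff.support := by
    intro n
    rw [Finsupp.mem_support_iff, ← h2 n]
    simpa using hx
  have hinj : Function.Injective fun n : ℕ => g ^ n * x := by
    intro m n hmn
    have e : g ^ m = g ^ n := mul_right_cancel hmn
    exact injective_pow_iff_not_isOfFinOrder.mpr (fun hf => by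
      obtain ⟨k, hk, e⟩ := isOfFinOrder_iff_pow_eq_one.mp hf
      exact hk.ne' (hg k e)) e
  exact Set.infinite_of_injective_forall_mem hinj h3 (Finset.finite_toSet _)

noncomputable def st (a : MonoidAlgebra K G) : MonoidAlgebra K G :=
  MonoidAlgebra.mapDomainLinearMap K K (fun g : G => g⁻¹) a

theorem st_o (g : G) : st (o g : MonoidAlgebra K G) = o g⁻¹ := by simp [st]

theorem st_add (a b : MonoidAlgebra K G) : st (a + b) = st a + st b := map_add _ _ _
theorem st_sub (a b : MonoidAlgebra K G) : st (a - b) = st a - st b := map_sub _ _ _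
theorem st_smul (r : K) (a : MonoidAlgebra K G) : st (r • a) = r • st a := map_smul _ _ _
theorem st_zero : st (0 : MonoidAlgebra K G) = 0 := map_zero _

theorem st_one : st (1 : MonoidAlgebra K G) = 1 := by
  simpa [-MonoidAlgebra.of_apply] using st_o (K := K) (1 : G)

theorem st_mul (a b : MonoidAlgebra K G) : st (a * b) = st b * st a := by
  induction a using MonoidAlgebra.induction_on with
  | of g =>
    induction b using MonoidAlgebra.induction_on with
    | of h => rw [← map_mul, st_o, st_o, st_o, mul_inv_rev, o, map_mul]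
    | add x y hx hy => rw [mul_add, st_add, st_add, hx, hy, add_mul]
    | smul r x hx => rw [mul_smul_comm, st_smul, st_smul, hx, smul_mul_assoc]
  | add x y hx hy => rw [add_mul, st_add, st_add, hx, hy, mul_add]
  | smul r x hx => rw [smul_mul_assoc, st_smul, st_smul, hx, mul_smul_comm]

theorem st_eq_zero {a : MonoidAlgebra K G} (h : st a = 0) : a = 0 :=
  MonoidAlgebra.mapDomain_injective (f := fun g : G => g⁻¹) inv_injective
    (h.trans (MonoidAlgebra.mapDomain_zero _).symm)

theorem basis_inf {n : ℕ} (b : FreeGroupBasis (Fin n) G) (i : Fin n) (k : ℕ)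
    (h : b i ^ k = 1) : k = 0 := by
  let f : G →* Multiplicative ℤ := b.lift fun _ => Multiplicative.ofAdd 1
  have h0 : f (b i) = Multiplicative.ofAdd 1 :=
    congrFun (b.lift.symm_apply_apply fun _ => Multiplicative.ofAdd (1 : ℤ)) i
  have := congrArg (fun g => Multiplicative.toAdd (f g)) h
  simpa [h0] using this

noncomputable def Mod (p q : G) :
    Submodule (MonoidAlgebra K G)ᵐᵒᵖ (Fin 4 → MonoidAlgebra K G) where
  carrier := {v | (∃ t, v 0 = (o p - 1) * t ∧ v 1 = (o q - 1) * t) ∧ eps (v 2) = 0 ∧ eps (v 3) = 0}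
  add_mem' := by
    rintro v w ⟨⟨t, h0, h1⟩, h2, h3⟩ ⟨⟨s, k0, k1⟩, k2, k3⟩
    exact ⟨⟨t + s, by rw [Pi.add_apply, h0, k0, mul_add], by rw [Pi.add_apply, h1, k1, mul_add]⟩,
      by rw [Pi.add_apply, map_add, h2, k2, add_zero],
      by rw [Pi.add_apply, map_add, h3, k3, add_zero]⟩
  zero_mem' := ⟨⟨0, by simp, by simp⟩, by simp, by simp⟩
  smul_mem' := by
    rintro c v ⟨⟨t, h0, h1⟩, h2, h3⟩
    simp only [Set.mem_ofPred_eq, Pi.smul_apply, MulOpposite.smul_eq_mul_unop, map_mul]
    exact ⟨⟨t * c.unop, by rw [h0, mul_assoc], by rw [h1, mul_assoc]⟩, by rw [h2, zero_mul],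
      by rw [h3, zero_mul]⟩

noncomputable def gen {n : ℕ} (b : FreeGroupBasis (Fin n) G) (p q : G) :
    Unit ⊕ Fin n ⊕ Fin n → Fin 4 → MonoidAlgebra K G :=
  Sum.elim (fun _ => ![o p - 1, o q - 1, 0, 0])
    (Sum.elim (fun i => ![0, 0, o (b i) - 1, 0]) (fun i => ![0, 0, 0, o (b i) - 1]))

theorem gen_mem {n : ℕ} (b : FreeGroupBasis (Fin n) G) (p q : G) (i : Unit ⊕ Fin n ⊕ Fin n) :
    gen b p q i ∈ Mod (K := K) p q := by
  rcases i with _ | i | i
  · exact ⟨⟨1, (mul_one _).symm, (mul_one _).symm⟩, map_zero _, map_zero _⟩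
  · exact ⟨⟨0, (mul_zero _).symm, (mul_zero _).symm⟩,
      by change eps (o (b i) - 1) = 0; rw [map_sub, eps_o, map_one, sub_self], map_zero _⟩
  · exact ⟨⟨0, (mul_zero _).symm, (mul_zero _).symm⟩, map_zero _,
      by change eps (o (b i) - 1) = 0; rw [map_sub, eps_o, map_one, sub_self]⟩

theorem rank_Mod {n : ℕ} (b : FreeGroupBasis (Fin n) G) (p q : G)
    (hp : ∀ k : ℕ, p ^ k = 1 → k = 0) : HasRank (Mod (K := K) p q) (1 + (n + n)) := by
  have hli : LinearIndependent (MonoidAlgebra K G)ᵐᵒᵖ (gen (K := K) b p q) := by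
    rw [Fintype.linearIndependent_iff]
    intro g hg
    have e0 := congrFun hg 0
    have e2 := congrFun hg 2
    have e3 := congrFun hg 3
    simp only [Fintype.sum_sum_type, Finset.sum_apply, Pi.smul_apply,
      MulOpposite.smul_eq_mul_unop, gen, Sum.elim_inl, Sum.elim_inr] at e0 e2 e3
    simp [-MonoidAlgebra.of_apply] at e0 e2 e3
    rintro (_ | i | i)
    · exact unop_injective (nzd_left hp e0)
    · exact unop_injective (indep b _ e2 i)
    · exact unop_injective (indep b _ e3 i)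
  have hsp : Submodule.span (MonoidAlgebra K G)ᵐᵒᵖ (Set.range (gen (K := K) b p q)) =
      Mod p q := by
    apply le_antisymm
    · rw [Submodule.span_le]
      rintro _ ⟨i, rfl⟩
      exact gen_mem b p q i
    · rintro v ⟨⟨t, h0, h1⟩, h2, h3⟩
      obtain ⟨c, hc⟩ := aug b _ h2
      obtain ⟨d, hd⟩ := aug b _ h3
      rw [Submodule.mem_span_range_iff_exists_fun]
      refine ⟨Sum.elim (fun _ => op t) (Sum.elim (fun i => op (c i)) (fun i => op (d i))), ?_⟩
      funext k
      simp only [Fintype.sum_sum_type, Finset.sum_apply, Pi.smul_apply,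
        MulOpposite.smul_eq_mul_unop, gen, Sum.elim_inl, Sum.elim_inr]
      fin_cases k <;> simp [-MonoidAlgebra.of_apply, h0, h1, hc, hd]
  rw [← hsp]
  exact ⟨(Module.Basis.span hli).reindex (Fintype.equivFinOfCardEq (by simp))⟩

theorem algebraic (b : FreeGroupBasis (Fin 2) G) :
    Algebraic (Mod (K := K) (b 1) (b 0 * b 0)) := by
  rintro N - ⟨N', hN⟩ hM
  by_contra hne
  obtain ⟨w, hw, hw0⟩ : ∃ w ∈ N', w ≠ 0 := by
    apply Submodule.exists_mem_ne_zero_of_ne_bot
    rintro rfl
    exact hne (eq_top_of_isCompl_bot hN)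
  obtain ⟨j, hj⟩ := Function.ne_iff.mp hw0
  let φ : (Fin 4 → MonoidAlgebra K G) →ₗ[(MonoidAlgebra K G)ᵐᵒᵖ] MonoidAlgebra K G :=
    (LinearMap.proj j).comp (N'.subtype.comp (N'.projectionOnto N hN.symm))
  have hφ : ∀ v, φ v = ∑ i, φ (Pi.single i 1) * v i := by
    intro v
    conv_lhs => rw [← Finset.univ_sum_single v, map_sum]
    refine Finset.sum_congr rfl fun i _ => ?_
    rw [← op_smul_eq_mul, ← map_smul, ← Pi.single_smul, op_smul_eq_mul, one_mul]
  have hz : ∀ i, φ (gen b (b 1) (b 0 * b 0) i) = 0 := fun i => by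
    have := Submodule.projectionOnto_apply_of_mem_right hN.symm (hM (gen_mem b _ _ i))
    simp [φ, this]
  have nzd : ∀ (g : G) (u : MonoidAlgebra K G), (∀ k : ℕ, g ^ k = 1 → k = 0) →
      u * (o g - 1) = 0 → u = 0 := by
    intro g u hg h
    have := congrArg st h
    rw [st_mul, st_sub, st_o, st_one, st_zero] at this
    exact st_eq_zero (nzd_left (fun k hk => hg k (by rwa [inv_pow, inv_eq_one] at hk)) this)
  have e0 := hz (.inl ())
  have e2 := hz (.inr (.inl 0))
  have e3 := hz (.inr (.inr 0))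
  rw [hφ] at e0 e2 e3
  simp only [Fin.sum_univ_four, gen, Sum.elim_inl, Sum.elim_inr] at e0 e2 e3
  simp [-MonoidAlgebra.of_apply, -map_mul] at e0 e2 e3
  have u2 := nzd _ _ (basis_inf b 0) e2
  have u3 := nzd _ _ (basis_inf b 0) e3
  have u1 : φ (Pi.single 1 1) = 0 := by
    have h := congrArg st e0
    rw [st_add, st_mul, st_mul, st_sub, st_sub, st_o, st_o, st_one, st_zero] at h
    have h2 := indep b ![-((o (b 0) + 1) * o (b 0 * b 0)⁻¹ * st (φ (Pi.single 1 1))),
      -(o (b 1)⁻¹ * st (φ (Pi.single 0 1)))] (by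
        rw [← h, Fin.sum_univ_two]
        have k0 := o_inv (K := K) (b 0 * b 0)
        have k1 := o_inv (K := K) (b 1)
        rw [o, map_mul] at k0
        simp only [Matrix.cons_val_zero, Matrix.cons_val_one]
        have a1 : (o (b 1) - 1 : MonoidAlgebra K G) * o (b 1)⁻¹ = 1 - o (b 1)⁻¹ := by
          rw [sub_mul, k1, one_mul]
        have a0 : (o (b 0) - 1 : MonoidAlgebra K G) * ((o (b 0) + 1) * o (b 0 * b 0)⁻¹) =
            1 - o (b 0 * b 0)⁻¹ := by
          have : (o (b 0) - 1 : MonoidAlgebra K G) * ((o (b 0) + 1) * o (b 0 * b 0)⁻¹) =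
              o (b 0) * o (b 0) * o (b 0 * b 0)⁻¹ - o (b 0 * b 0)⁻¹ := by noncomm_ring
          rw [this, k0]
        rw [mul_neg, mul_neg, ← mul_assoc, ← mul_assoc _ (o (b 1)⁻¹), a0, a1]
        noncomm_ring) 0
    simp only [Matrix.cons_val_zero, neg_eq_zero] at h2
    have h3 : (o (b 0 * b 0) - 1) * (o (b 0 * b 0)⁻¹ * st (φ (Pi.single 1 1))) = 0 := by
      have : (o (b 0 * b 0) - 1 : MonoidAlgebra K G) = (o (b 0) - 1) * (o (b 0) + 1) := by
        rw [o, map_mul]; noncomm_ring
      rw [this, mul_assoc, ← mul_assoc (o (b 0) + 1), h2, mul_zero]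
    have h4 := nzd_left (g := b 0 * b 0) (fun k hk => by
      rw [← pow_two, ← pow_mul] at hk
      have := basis_inf b 0 _ hk
      omega) h3
    apply st_eq_zero
    have h5 := congrArg (fun z => o (b 0 * b 0) * z) h4
    simpa only [← mul_assoc, o_inv, one_mul, mul_zero] using h5
  rw [u1, zero_mul, add_zero] at e0
  have u0 := nzd _ _ (basis_inf b 1) e0
  apply hj
  have : φ w = w j := by
    have := Submodule.projectionOnto_apply_left hN.symm ⟨w, hw⟩
    simp [φ, this]
  rw [← this, hφ, Fin.sum_univ_four, u0, u1, u2, u3]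
  simp

theorem inter_Mod (H : Subgroup G) (p q : H) (hp : ∀ k : ℕ, (p : G) ^ k = 1 → k = 0) :
    inter H (Mod (K := K) (p : G) (q : G)) = Mod p q := by
  let ι := MonoidAlgebra.mapDomainRingHom K H.subtype
  have ιo : ∀ h : H, ι (o h) = o (h : G) := fun h => by simp [ι]
  have ιinj : Function.Injective ι := MonoidAlgebra.mapDomain_injective H.subtype_injective
  have ιeps : ∀ a, eps (ι a) = eps a := by
    intro a
    induction a using MonoidAlgebra.induction_on with
    | of g => rw [ιo, eps_o, eps_o]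
    | add x y hx hy => simp only [map_add, hx, hy]
    | smul r x hx =>
      have : ι (r • x) = r • ι x := MonoidAlgebra.mapDomain_smul _ _ _
      rw [this, map_smul, map_smul, hx]
  ext v
  constructor
  · rintro ⟨⟨t, h0, h1⟩, h2, h3⟩
    let π : MonoidAlgebra K G → MonoidAlgebra K H :=
      MonoidAlgebra.comapDomain H.subtype H.subtype_injective
    have hπ : ∀ a (h : H), (π a).coeff h = a.coeff h := fun a h => rfl
    have hι : ∀ a (h : H), (ι a).coeff h = a.coeff h := fun a h =>
      Finsupp.mapDomain_apply H.subtype_injective _ h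
    have e : v 0 = (o p - 1) * π t := by
      ext h
      rw [← hι, show ι (v 0) = _ from h0]
      simp [sub_mul, hπ]
    have e' : t = ι (π t) := by
      rw [← sub_eq_zero]
      apply nzd_left hp
      rw [mul_sub, ← show ι (v 0) = _ from h0, e, ← ιo, ← map_one ι, ← map_sub, ← map_mul, sub_self]
    refine ⟨⟨π t, e, ιinj ?_⟩, by rw [← ιeps]; exact h2, by rw [← ιeps]; exact h3⟩
    rw [map_mul, map_sub, ιo, map_one, ← e']
    exact h1
  · rintro ⟨⟨t, h0, h1⟩, h2, h3⟩
    refine ⟨⟨ι t, ?_, ?_⟩, (ιeps _).trans h2, (ιeps _).trans h3⟩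
    · change ι (v 0) = _
      rw [h0, map_mul, map_sub, ιo, map_one]
    · change ι (v 1) = _
      rw [h1, map_mul, map_sub, ιo, map_one]

end Fox

section Sub

open FreeGroup

def emb : FreeGroup (Fin 3) →* FreeGroup (Fin 2) :=
  lift ![of 0 * of 0, of 1, (of 0)⁻¹ * of 1 * of 0]

def px : Equiv.Perm (Bool × FreeGroup (Fin 3)) where
  toFun z := if z.1 then (false, of 0 * z.2) else (true, z.2)
  invFun z := if z.1 then (false, z.2) else (true, (of 0)⁻¹ * z.2)
  left_inv := by rintro ⟨_ | _, w⟩ <;> simp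
  right_inv := by rintro ⟨_ | _, w⟩ <;> simp

def py : Equiv.Perm (Bool × FreeGroup (Fin 3)) where
  toFun z := if z.1 then (true, of 2 * z.2) else (false, of 1 * z.2)
  invFun z := if z.1 then (true, (of 2)⁻¹ * z.2) else (false, (of 1)⁻¹ * z.2)
  left_inv := by rintro ⟨_ | _, w⟩ <;> simp
  right_inv := by rintro ⟨_ | _, w⟩ <;> simp

theorem emb_inj : Function.Injective emb := by
  let ρ : FreeGroup (Fin 2) →* Equiv.Perm (Bool × FreeGroup (Fin 3)) := lift ![px, py]
  have key : ∀ w h : FreeGroup (Fin 3), ρ (emb w) (false, h) = (false, w * h) := by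
    intro w
    induction w using FreeGroup.induction_on with
    | C1 => simp
    | of i =>
      intro h
      fin_cases i
      · simp [ρ, emb, px]
      · simp [ρ, emb, py]
      · simp only [ρ, emb]
        simp [px, py]
    | inv_of i ih =>
      intro h
      rw [_root_.map_inv, _root_.map_inv, Equiv.Perm.inv_eq_iff_eq, ih, mul_inv_cancel_left]
    | mul x y hx hy =>
      intro h
      rw [_root_.map_mul, _root_.map_mul, Equiv.Perm.mul_apply, hy, hx, mul_assoc]
  intro v w h
  have := key v 1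
  rw [h, key w 1] at this
  simpa using this.symm

end Sub

/-- The inequality fails over every field, even for an algebraic `M` of rank larger than `d`. -/
theorem result (K : Type) [Field K] :
    ∃ (d m r h : ℕ) (H : Subgroup (FreeGroup (Fin 2)))
      (M : Submodule (MonoidAlgebra K (FreeGroup (Fin 2)))ᵐᵒᵖ
        (Fin d → MonoidAlgebra K (FreeGroup (Fin 2)))),
      1 ≤ d ∧ 1 ≤ h ∧ Nonempty (FreeGroupBasis (Fin h) H) ∧ Algebraic M ∧ HasRank M m ∧
      HasRank (inter H M) r ∧ d < m ∧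
      ((m : ℚ) / d - 1) * (h - 1) < (r : ℚ) / d - 1 := by
  let b : FreeGroupBasis (Fin 2) (FreeGroup (Fin 2)) := FreeGroupBasis.ofFreeGroup _
  let c : FreeGroupBasis (Fin 3) emb.range :=
    (FreeGroupBasis.ofFreeGroup _).map (MonoidHom.ofInjective emb_inj)
  have c0 : (c 0 : FreeGroup (Fin 2)) = b 0 * b 0 := by
    change emb (FreeGroup.of 0) = _
    simp [emb, b]
  have c1 : (c 1 : FreeGroup (Fin 2)) = b 1 := by
    change emb (FreeGroup.of 1) = _
    simp [emb, b]
  refine ⟨4, 1 + (2 + 2), 1 + (3 + 3), 3, emb.range, Mod (b 1) (b 0 * b 0), by norm_num,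
    by norm_num, ⟨c⟩, algebraic b, rank_Mod b _ _ (basis_inf b 1), ?_, by norm_num, by norm_num⟩
  rw [← c0, ← c1, inter_Mod _ _ _ (by rw [c1]; exact basis_inf b 1)]
  exact rank_Mod c _ _ (basis_inf c 1)

end Pool.Agent.Results.MP_6883a6_al.Counterexample
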